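import Mathlib

set_option autoImplicit false

/-! Averages over random signs, by recursion over the list of the coefficients. -/

namespace Pool.Agent.Q156.KH

/-- `E F(y + ∑ ± b)`, the sum over `b ∈ l` with independent random signs -/
noncomputable def ex : List ℝ → (ℝ → ℝ) → ℝ → ℝ
  | [], F, y => F y
  | b :: l, F, y => (ex l F (y + b) + ex l F (y - b)) / 2

lemma ex_perm {l l' : List ℝ} (h : l.Perm l') (F : ℝ → ℝ) (y : ℝ) : ex l F y = ex l' F y := by
  induction h generalizing y with
  | nil => rfl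
  | cons b _ ih => simp only [ex, ih]
  | swap b c l =>
    simp only [ex]
    have e1 : y + c + b = y + b + c := by ring
    have e2 : y + c - b = y - b + c := by ring
    have e3 : y - c + b = y + b - c := by ring
    have e4 : y - c - b = y - b - c := by ring
    rw [e1, e2, e3, e4]
    ring
  | trans _ _ ih1 ih2 => rw [ih1, ih2]

lemma ex_mono (l : List ℝ) {F G : ℝ → ℝ} (h : ∀ t, F t ≤ G t) (y : ℝ) : ex l F y ≤ ex l G y := by
  induction l generalizing y with
  | nil => exact h y
  | cons b l ih =>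
    simp only [ex]
    have := ih (y + b)
    have := ih (y - b)
    linarith

lemma ex_add (l : List ℝ) (F G : ℝ → ℝ) (y : ℝ) :
    ex l (fun t => F t + G t) y = ex l F y + ex l G y := by
  induction l generalizing y with
  | nil => rfl
  | cons b l ih => simp only [ex, ih]; ring

lemma ex_sub (l : List ℝ) (F G : ℝ → ℝ) (y : ℝ) :
    ex l (fun t => F t - G t) y = ex l F y - ex l G y := by
  induction l generalizing y with
  | nil => rfl
  | cons b l ih => simp only [ex, ih]; ring

lemma ex_mul (l : List ℝ) (c : ℝ) (F : ℝ → ℝ) (y : ℝ) :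
    ex l (fun t => c * F t) y = c * ex l F y := by
  induction l generalizing y with
  | nil => rfl
  | cons b l ih => simp only [ex, ih]; ring

lemma ex_const (l : List ℝ) (c : ℝ) (y : ℝ) : ex l (fun _ => c) y = c := by
  induction l generalizing y with
  | nil => rfl
  | cons b l ih => simp only [ex, ih]; ring

lemma ex_reflect (l : List ℝ) (F : ℝ → ℝ) (c y : ℝ) :
    ex l (fun w => F (c - w)) y = ex l F (c - y) := by
  induction l generalizing y with
  | nil => rfl
  | cons b l ih =>
    simp only [ex, ih]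
    have e1 : c - (y + b) = c - y - b := by ring
    have e2 : c - (y - b) = c - y + b := by ring
    rw [e1, e2]
    ring

lemma ex_sq (l : List ℝ) (y : ℝ) : ex l (fun t => t ^ 2) y = y ^ 2 + (l.map fun b => b ^ 2).sum := by
  induction l generalizing y with
  | nil => simp [ex]
  | cons b l ih =>
    simp only [ex, ih, List.map_cons, List.sum_cons]
    ring

/-- the reflection principle -/
lemma ex_pass {A L : ℝ} {F G : ℝ → ℝ} (h0 : ∀ w, w < L → F w ≤ G w)
    (hz : ∀ z, L ≤ z → z < L + A → ∀ w, F (2 * z - w) ≤ G w) (l : List ℝ)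
    (hl : ∀ b ∈ l, 0 ≤ b ∧ b ≤ A) (y : ℝ) (hy : y < L) : ex l F y ≤ ex l G y := by
  induction l generalizing y with
  | nil => exact h0 y hy
  | cons b l ih =>
    have hb := hl b List.mem_cons_self
    have hl' : ∀ c ∈ l, 0 ≤ c ∧ c ≤ A := fun c hc => hl c (List.mem_cons_of_mem b hc)
    simp only [ex]
    have h1 : ex l F (y - b) ≤ ex l G (y - b) := ih hl' (y - b) (by linarith)
    have h2 : ex l F (y + b) ≤ ex l G (y + b) := by
      rcases lt_or_ge (y + b) L with h | h
      · exact ih hl' (y + b) h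
      · have e := ex_reflect l F (2 * (y + b)) (y + b)
        have e2 : 2 * (y + b) - (y + b) = y + b := by ring
        rw [e2] at e
        rw [← e]
        exact ex_mono l (hz (y + b) h (by linarith)) (y + b)
    linarith

open Classical in
/-- indicator of a condition -/
noncomputable def ind (p : ℝ → Prop) (t : ℝ) : ℝ := if p t then 1 else 0

lemma ind_nonneg (p : ℝ → Prop) (t : ℝ) : 0 ≤ ind p t := by
  unfold ind; split_ifs <;> norm_num

lemma ind_of {p : ℝ → Prop} {t : ℝ} (h : p t) : ind p t = 1 := by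
  unfold ind; rw [if_pos h]

lemma ind_not {p : ℝ → Prop} {t : ℝ} (h : ¬ p t) : ind p t = 0 := by
  unfold ind; rw [if_neg h]

lemma ind_le {p q : ℝ → Prop} {t s : ℝ} (h : p t → q s) : ind p t ≤ ind q s := by
  by_cases hp : p t
  · rw [ind_of hp, ind_of (h hp)]
  · rw [ind_not hp]; exact ind_nonneg _ _

/-- the probability of a short window is at most that of `|T| ≤ 6A/5` -/
lemma window {A : ℝ} (hA : 0 < A) (l : List ℝ) (hl : ∀ b ∈ l, 0 ≤ b ∧ b ≤ A) {t : ℝ}
    (ht : 0 ≤ t) : ex l (ind fun w => t ≤ w ∧ w < t + 2 / 5 * A) 0 ≤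
      ex l (ind fun w => |w| ≤ 6 / 5 * A) 0 := by
  rcases le_or_gt (t + 2 / 5 * A) (6 / 5 * A) with h | h
  · apply ex_mono
    intro w
    apply ind_le
    rintro ⟨h1, h2⟩
    rw [abs_le]
    constructor <;> linarith
  · apply ex_pass (A := A) (L := (t + 2 / 5 * A - 6 / 5 * A) / 2) _ _ l hl 0 (by linarith)
    · intro w hw
      apply ind_le
      rintro ⟨h1, h2⟩
      exfalso
      linarith
    · intro z hz1 hz2 w
      apply ind_le
      rintro ⟨h1, h2⟩
      rw [abs_le]
      constructor <;> linarith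

lemma window_abs {A : ℝ} (hA : 0 < A) (l : List ℝ) (hl : ∀ b ∈ l, 0 ≤ b ∧ b ≤ A) {t : ℝ}
    (ht : 0 ≤ t) : ex l (ind fun w => t ≤ |w| ∧ |w| < t + 2 / 5 * A) 0 ≤
      2 * ex l (ind fun w => |w| ≤ 6 / 5 * A) 0 := by
  have h1 := window hA l hl ht
  have h2 : ex l (fun w => ind (fun w => t ≤ w ∧ w < t + 2 / 5 * A) (0 - w)) 0 =
      ex l (ind fun w => t ≤ w ∧ w < t + 2 / 5 * A) 0 := by
    rw [ex_reflect, sub_zero]
  have h3 : ex l (ind fun w => t ≤ |w| ∧ |w| < t + 2 / 5 * A) 0 ≤
      ex l (fun w => ind (fun w => t ≤ w ∧ w < t + 2 / 5 * A) w +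
        ind (fun w => t ≤ w ∧ w < t + 2 / 5 * A) (0 - w)) 0 := by
    apply ex_mono
    intro w
    rcases le_total 0 w with hw | hw
    · have : ind (fun w => t ≤ |w| ∧ |w| < t + 2 / 5 * A) w ≤
          ind (fun w => t ≤ w ∧ w < t + 2 / 5 * A) w := by
        apply ind_le
        rintro ⟨h4, h5⟩
        rw [abs_of_nonneg hw] at h4 h5
        exact ⟨h4, h5⟩
      have := ind_nonneg (fun w => t ≤ w ∧ w < t + 2 / 5 * A) (0 - w)
      linarith
    · have : ind (fun w => t ≤ |w| ∧ |w| < t + 2 / 5 * A) w ≤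
          ind (fun w => t ≤ w ∧ w < t + 2 / 5 * A) (0 - w) := by
        apply ind_le
        rintro ⟨h4, h5⟩
        rw [abs_of_nonpos hw] at h4 h5
        constructor <;> linarith
      have := ind_nonneg (fun w => t ≤ w ∧ w < t + 2 / 5 * A) w
      linarith
  rw [ex_add, h2] at h3
  linarith

lemma cover {A : ℝ} (hA : 0 < A) (l : List ℝ) (hl : ∀ b ∈ l, 0 ≤ b ∧ b ≤ A) (K : ℕ) :
    ex l (ind fun w => |w| < K * (2 / 5 * A)) 0 ≤
      2 * K * ex l (ind fun w => |w| ≤ 6 / 5 * A) 0 := by
  induction K with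
  | zero =>
    have : ex l (ind fun w => |w| < (0 : ℕ) * (2 / 5 * A)) 0 ≤ ex l (fun _ => 0) 0 := by
      apply ex_mono
      intro w
      rw [ind_not]
      simp
    rw [ex_const] at this
    simpa using this
  | succ K ih =>
    have h1 := window_abs hA l hl (t := K * (2 / 5 * A)) (by positivity)
    have h2 : ex l (ind fun w => |w| < (K + 1 : ℕ) * (2 / 5 * A)) 0 ≤
        ex l (fun w => ind (fun w => |w| < K * (2 / 5 * A)) w +
          ind (fun w => K * (2 / 5 * A) ≤ |w| ∧ |w| < K * (2 / 5 * A) + 2 / 5 * A) w) 0 := by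
      apply ex_mono
      intro w
      by_cases hw : |w| < K * (2 / 5 * A)
      · have h3 : ind (fun w => |w| < K * (2 / 5 * A)) w = 1 := ind_of hw
        have h4 := ind_nonneg (fun w => K * (2 / 5 * A) ≤ |w| ∧
          |w| < K * (2 / 5 * A) + 2 / 5 * A) w
        have h5 : ind (fun w => |w| < (K + 1 : ℕ) * (2 / 5 * A)) w ≤ 1 := by
          unfold ind; split_ifs <;> norm_num
        linarith
      · have h4 := ind_nonneg (fun w => |w| < K * (2 / 5 * A)) w
        have h5 : ind (fun w => |w| < (K + 1 : ℕ) * (2 / 5 * A)) w ≤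
            ind (fun w => K * (2 / 5 * A) ≤ |w| ∧ |w| < K * (2 / 5 * A) + 2 / 5 * A) w := by
          apply ind_le
          intro h6
          push_cast at h6
          refine ⟨not_lt.1 hw, ?_⟩
          linarith
        linarith
    rw [ex_add] at h2
    push_cast at h2 ⊢
    linarith

/-- lower bound for the probability of a small value -/
lemma small_ball {A : ℝ} (hA : 0 < A) (hA1 : A ≤ 1) (l : List ℝ) (hl : ∀ b ∈ l, 0 ≤ b ∧ b ≤ A)
    (hs : (l.map fun b => b ^ 2).sum ≤ 1) :
    A / 16 ≤ ex l (ind fun w => |w| ≤ 6 / 5 * A) 0 := by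
  set K : ℕ := ⌊5 / A⌋₊ + 1 with hK
  have h1 : 5 / A < K := by
    rw [hK]
    push_cast
    exact Nat.lt_floor_add_one _
  have h2 : (K : ℝ) ≤ 6 / A := by
    rw [hK]
    push_cast
    have h3 : ((⌊5 / A⌋₊ : ℕ) : ℝ) ≤ 5 / A := Nat.floor_le (by positivity)
    have h4 : 1 ≤ 1 / A := by rw [le_div_iff₀ hA]; linarith
    have h5 : 6 / A = 5 / A + 1 / A := by ring
    linarith
  have h3 := cover hA l hl K
  have h4 : (2 : ℝ) < K * (2 / 5 * A) := by
    rw [div_lt_iff₀ hA] at h1
    linarith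
  have h5 : ex l (fun w => 1 - 1 / 4 * w ^ 2) 0 ≤ ex l (ind fun w => |w| < K * (2 / 5 * A)) 0 := by
    apply ex_mono
    intro w
    by_cases hw : |w| < K * (2 / 5 * A)
    · have e : ind (fun w => |w| < K * (2 / 5 * A)) w = 1 := ind_of hw
      rw [e]
      nlinarith [sq_nonneg w]
    · have e : ind (fun w => |w| < K * (2 / 5 * A)) w = 0 := ind_not hw
      rw [e]
      have h6 : 2 ≤ |w| := by linarith [not_lt.1 hw]
      have h7 : 4 ≤ w ^ 2 := by
        rw [← sq_abs]
        nlinarith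
      linarith
  have h6 : ex l (fun w => 1 - 1 / 4 * w ^ 2) 0 = 1 - 1 / 4 * (l.map fun b => b ^ 2).sum := by
    have := ex_sub l (fun _ => 1) (fun w => 1 / 4 * w ^ 2) 0
    rw [this, ex_const, ex_mul, ex_sq]
    ring
  have h7 : 3 / 4 ≤ 2 * K * ex l (ind fun w => |w| ≤ 6 / 5 * A) 0 := by linarith
  set p := ex l (ind fun w => |w| ≤ 6 / 5 * A) 0 with hp
  have hp0 : 0 ≤ p := by
    have := ex_mono l (F := fun _ => 0) (G := ind fun w => |w| ≤ 6 / 5 * A)
      (fun t => ind_nonneg _ _) 0
    rwa [ex_const] at this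
  have h8 : 3 / 4 ≤ 2 * (6 / A) * p := by
    have : 2 * (K : ℝ) * p ≤ 2 * (6 / A) * p := by gcongr
    linarith
  have h9 : 2 * (6 / A) * p = 12 * p / A := by ring
  rw [h9, le_div_iff₀ hA] at h8
  linarith

end Pool.Agent.Q156.KH
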