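import Pool.Agent.Q156.KH.A

namespace Pool.Agent.Q156.KH

lemma phi (T w : ℝ) (hw : 0 ≤ w) :
    (|T + w| ^ 3 + |T - w| ^ 3) / 2 = |T| ^ 3 + 3 * |T| * w ^ 2 + (max (w - |T|) 0) ^ 3 := by
  have key : ∀ T : ℝ, 0 ≤ T →
      (|T + w| ^ 3 + |T - w| ^ 3) / 2 = T ^ 3 + 3 * T * w ^ 2 + (max (w - T) 0) ^ 3 := by
    intro T hT
    rw [abs_of_nonneg (show 0 ≤ T + w by linarith)]
    rcases le_total w T with h | h
    · rw [abs_of_nonneg (show 0 ≤ T - w by linarith), max_eq_right (by linarith)]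
      ring
    · rw [abs_of_nonpos (show T - w ≤ 0 by linarith), max_eq_left (by linarith)]
      ring
  rcases le_total 0 T with h | h
  · rw [abs_of_nonneg h]
    exact key T h
  · have h1 := key (-T) (by linarith)
    have e1 : |-T + w| = |T - w| := by rw [← abs_neg]; congr 1; ring
    have e2 : |-T - w| = |T + w| := by rw [← abs_neg]; congr 1; ring
    rw [e1, e2] at h1
    rw [abs_of_nonpos h]
    linarith

lemma gain0 {t u v U : ℝ} (hv : 0 ≤ v) (ht : 0 ≤ t) (huv : v ≤ u) (hU : 0 ≤ U)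
    (hUU : U ^ 2 = u ^ 2 + v ^ 2) :
    (max (u - t) 0) ^ 3 + (max (v - t) 0) ^ 3 ≤ (max (U - t) 0) ^ 3 := by
  have hu : 0 ≤ u := hv.trans huv
  have huU : u ≤ U := by nlinarith
  rcases le_or_gt v t with h | h
  · rw [max_eq_right (show v - t ≤ 0 by linarith)]
    have : (max (u - t) 0) ^ 3 ≤ (max (U - t) 0) ^ 3 :=
      pow_le_pow_left₀ (le_max_right _ _) (max_le_max (by linarith) le_rfl) 3
    linarith
  · rw [max_eq_left (show 0 ≤ u - t by linarith), max_eq_left (show 0 ≤ v - t by linarith),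
      max_eq_left (show 0 ≤ U - t by linarith)]
    have h2 : 2 * U ≤ 2 * u + v := by
      apply le_of_sq_le_sq _ (by linarith)
      nlinarith
    set p := u - t with hp
    set q := v - t with hq
    set P := U - t with hP
    have hp0 : 0 ≤ p := by linarith
    have hq0 : 0 ≤ q := by linarith
    have hP0 : 0 ≤ P := by linarith
    have hPp : p ≤ P := by linarith
    have hPq : q ≤ P := by linarith
    have h3 : p ^ 2 + q ^ 2 ≤ P ^ 2 := by
      have e : P ^ 2 - (p ^ 2 + q ^ 2) = t * (2 * (u + v - U) - t) := by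
        rw [hp, hq, hP]
        nlinarith
      have : 0 ≤ t * (2 * (u + v - U) - t) := mul_nonneg ht (by linarith)
      linarith
    have h4 : p ^ 3 ≤ p ^ 2 * P := by
      have := mul_le_mul_of_nonneg_left hPp (sq_nonneg p)
      nlinarith
    have h5 : q ^ 3 ≤ q ^ 2 * P := by
      have := mul_le_mul_of_nonneg_left hPq (sq_nonneg q)
      nlinarith
    have h6 : (p ^ 2 + q ^ 2) * P ≤ P ^ 2 * P := mul_le_mul_of_nonneg_right h3 hP0
    nlinarith

/-- quantitative gain, `v ≤ t` -/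
lemma gain1 {t u v U a : ℝ} (ha : 0 < a) (hv : 0 ≤ v) (huv : v ≤ u) (hU : 0 ≤ U)
    (hUU : U ^ 2 = u ^ 2 + v ^ 2) (hu2 : u ≤ 2 * a) (hU2 : U ≤ 2 * a) (hUa : 2 * a ^ 2 ≤ U ^ 2)
    (hprod : u * v ≤ a ^ 2) (_hvt : v ≤ t) (hta : t ≤ 6 / 5 * a) :
    (max (u - t) 0) ^ 3 + (u * v) ^ 2 / (400 * a) ≤ (U - t) ^ 3 := by
  have hu : 0 ≤ u := hv.trans huv
  have huU : u ≤ U := by nlinarith
  have h14 : 7 / 5 * a ≤ U := by
    apply le_of_sq_le_sq _ hU
    nlinarith
  have hX : a / 5 ≤ U - t := by linarith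
  have huv0 : 0 ≤ u * v := mul_nonneg hu hv
  rcases le_or_gt t u with h | h
  · rw [max_eq_left (show 0 ≤ u - t by linarith)]
    -- U - u ≥ v^2 / (4a)
    have h1 : v ^ 2 / (4 * a) ≤ U - u := by
      rw [div_le_iff₀ (by positivity)]
      have e : (U - u) * (U + u) = v ^ 2 := by nlinarith
      have : (U - u) * (U + u) ≤ (U - u) * (4 * a) :=
        mul_le_mul_of_nonneg_left (by linarith) (by linarith)
      linarith
    have h2 : (U - u) * (U - t) ^ 2 ≤ (U - t) ^ 3 - (u - t) ^ 3 := by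
      have hX0 : 0 ≤ U - t := by linarith
      have hY0 : 0 ≤ u - t := by linarith
      have e : (U - t) ^ 3 - (u - t) ^ 3 =
          (U - u) * ((U - t) ^ 2 + (U - t) * (u - t) + (u - t) ^ 2) := by ring
      rw [e]
      apply mul_le_mul_of_nonneg_left _ (by linarith)
      have := mul_nonneg hX0 hY0
      have := sq_nonneg (u - t)
      linarith
    have h3 : (a / 5) ^ 2 ≤ (U - t) ^ 2 := pow_le_pow_left₀ (by positivity) hX 2
    have h4 : v ^ 2 / (4 * a) * (a / 5) ^ 2 ≤ (U - u) * (U - t) ^ 2 :=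
      mul_le_mul h1 h3 (by positivity) (by linarith)
    have h5 : (u * v) ^ 2 / (400 * a) ≤ v ^ 2 / (4 * a) * (a / 5) ^ 2 := by
      have e : v ^ 2 / (4 * a) * (a / 5) ^ 2 = (4 * a ^ 2 * v ^ 2) / (400 * a) := by
        field_simp
        ring
      rw [e]
      apply div_le_div_of_nonneg_right _ (by positivity)
      have : u ^ 2 ≤ (2 * a) ^ 2 := pow_le_pow_left₀ hu hu2 2
      have := mul_le_mul_of_nonneg_right this (sq_nonneg v)
      nlinarith
    linarith
  · rw [max_eq_right (show u - t ≤ 0 by linarith)]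
    have h3 : (a / 5) ^ 3 ≤ (U - t) ^ 3 := pow_le_pow_left₀ (by positivity) hX 3
    have h5 : (u * v) ^ 2 / (400 * a) ≤ (a / 5) ^ 3 := by
      rw [div_le_iff₀ (by positivity)]
      have : (u * v) ^ 2 ≤ (a ^ 2) ^ 2 := pow_le_pow_left₀ huv0 hprod 2
      have h6 : 0 < a ^ 4 := by positivity
      nlinarith
    linarith

lemma gain2 {t u v U a : ℝ} (ha : 0 < a) (hv : 0 ≤ v) (ht : 0 ≤ t) (huv : v ≤ u) (hU : 0 ≤ U)
    (hUU : U ^ 2 = u ^ 2 + v ^ 2) (hu2 : u ≤ 2 * a) (hU2 : U ≤ 2 * a) (hUa : 2 * a ^ 2 ≤ U ^ 2)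
    (hprod : u * v ≤ a ^ 2) (hva : v ≤ a) (hta : t ≤ 6 / 5 * a) :
    (max (u - t) 0) ^ 3 + (max (v - t) 0) ^ 3 + (u * v) ^ 2 / (400 * a) ≤
      (max (U - t) 0) ^ 3 := by
  have hu : 0 ≤ u := hv.trans huv
  have huU : u ≤ U := by nlinarith
  have h14 : 7 / 5 * a ≤ U := by
    apply le_of_sq_le_sq _ hU
    nlinarith
  have hmU : (U - t) ^ 3 = (max (U - t) 0) ^ 3 := by rw [max_eq_left (by linarith)]
  rcases le_or_gt v t with h | h
  · rw [max_eq_right (show v - t ≤ 0 by linarith), ← hmU]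
    have := gain1 ha hv huv hU hUU hu2 hU2 hUa hprod h hta
    linarith
  · have h1 := gain1 ha hv huv hU hUU hu2 hU2 hUa hprod le_rfl (show v ≤ 6 / 5 * a by linarith)
    rw [max_eq_left (show 0 ≤ u - v by linarith)] at h1
    rw [← hmU, max_eq_left (show 0 ≤ u - t by linarith), max_eq_left (show 0 ≤ v - t by linarith)]
    -- f(t) ≥ f(v)
    set s := v - t with hs
    have hs0 : 0 < s := by linarith
    have hsv : s ≤ v := by linarith
    have hv0 : 0 < v := by linarith
    set W := U + u with hW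
    have hDW : (U - u) * W = v ^ 2 := by rw [hW]; nlinarith
    have hW2 : 2 * v ≤ W := by linarith
    have hW0 : 0 < W := by linarith
    have key : 0 ≤ 3 * (U - u) * (W - 2 * v + s) - s ^ 2 := by
      have e : (3 * (U - u) * (W - 2 * v + s) - s ^ 2) * W =
          3 * v ^ 2 * (W - 2 * v + s) - s ^ 2 * W := by
        rw [← hDW]; ring
      have h2 : 0 ≤ 3 * v ^ 2 * (W - 2 * v + s) - s ^ 2 * W := by
        have e2 : v * (3 * v ^ 2 * (W - 2 * v + s) - s ^ 2 * W) =
            (v - s) * (3 * v ^ 2 * (W - 2 * v)) + s * (v ^ 2 * (2 * W - 3 * v)) +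
              W * s * (v - s) * v := by ring
        have h3 : 0 ≤ (v - s) * (3 * v ^ 2 * (W - 2 * v)) :=
          mul_nonneg (by linarith) (mul_nonneg (by positivity) (by linarith))
        have h4 : 0 ≤ s * (v ^ 2 * (2 * W - 3 * v)) :=
          mul_nonneg hs0.le (mul_nonneg (by positivity) (by linarith))
        have h5 : 0 ≤ W * s * (v - s) * v :=
          mul_nonneg (mul_nonneg (mul_nonneg hW0.le hs0.le) (by linarith)) hv
        have h6 : 0 ≤ v * (3 * v ^ 2 * (W - 2 * v + s) - s ^ 2 * W) := by linarith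
        exact nonneg_of_mul_nonneg_right h6 hv0
      rw [← e] at h2
      exact nonneg_of_mul_nonneg_left h2 hW0
    have e3 : (U - t) ^ 3 - (u - t) ^ 3 - s ^ 3 =
        (U - v) ^ 3 - (u - v) ^ 3 + s * (3 * (U - u) * (W - 2 * v + s) - s ^ 2) := by
      rw [hs, hW]; ring
    have h7 : 0 ≤ s * (3 * (U - u) * (W - 2 * v + s) - s ^ 2) := mul_nonneg hs0.le key
    linarith

/-- cube of the absolute value -/
noncomputable def cu (t : ℝ) : ℝ := |t| ^ 3

lemma pair {a b : ℝ} (ha : 0 < a) (hb : 0 ≤ b) (hba : b ≤ a) {r : ℝ} (hr : 0 ≤ r)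
    (hrr : r ^ 2 = (a ^ 2 + b ^ 2) / 2) (T : ℝ) :
    ex [a, b] cu T + (a ^ 2 - b ^ 2) ^ 2 / (800 * a) * ind (fun w => |w| ≤ 6 / 5 * a) T ≤
      ex [r, r] cu T := by
  have e1 : ex [a, b] cu T = ((|T + (a + b)| ^ 3 + |T - (a + b)| ^ 3) / 2 +
      (|T + (a - b)| ^ 3 + |T - (a - b)| ^ 3) / 2) / 2 := by
    simp only [ex, cu]
    have h1 : T + a + b = T + (a + b) := by ring
    have h2 : T + a - b = T + (a - b) := by ring
    have h3 : T - a + b = T - (a - b) := by ring
    have h4 : T - a - b = T - (a + b) := by ring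
    rw [h1, h2, h3, h4]
    ring
  have e2 : ex [r, r] cu T = ((|T + 2 * r| ^ 3 + |T - 2 * r| ^ 3) / 2 + |T| ^ 3) / 2 := by
    simp only [ex, cu]
    have h1 : T + r + r = T + 2 * r := by ring
    have h2 : T + r - r = T := by ring
    have h3 : T - r + r = T := by ring
    have h4 : T - r - r = T - 2 * r := by ring
    rw [h1, h2, h3, h4]
    ring
  rw [e1, e2, phi T (a + b) (by linarith), phi T (a - b) (by linarith), phi T (2 * r) (by linarith)]
  have hsq : (2 * r) ^ 2 = (a + b) ^ 2 + (a - b) ^ 2 := by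
    have : (2 * r) ^ 2 = 4 * r ^ 2 := by ring
    rw [this, hrr]; ring
  by_cases hT : |T| ≤ 6 / 5 * a
  · have hi : ind (fun w => |w| ≤ 6 / 5 * a) T = 1 := ind_of hT
    rw [hi]
    have hg := gain2 (t := |T|) (u := a + b) (v := a - b) (U := 2 * r) (a := a) ha (by linarith)
      (abs_nonneg T) (by linarith) (by linarith) hsq (by linarith)
      (by apply le_of_sq_le_sq _ (by linarith); nlinarith)
      (by nlinarith) (by nlinarith) (by linarith) hT
    have e3 : ((a + b) * (a - b)) ^ 2 / (400 * a) = 2 * ((a ^ 2 - b ^ 2) ^ 2 / (800 * a)) := by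
      field_simp
      ring
    rw [e3] at hg
    nlinarith
  · have hi : ind (fun w => |w| ≤ 6 / 5 * a) T = 0 := ind_not hT
    rw [hi]
    have hg := gain0 (t := |T|) (u := a + b) (v := a - b) (U := 2 * r) (by linarith)
      (abs_nonneg T) (by linarith) (by linarith) hsq
    nlinarith

end Pool.Agent.Q156.KH
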