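import Pool.Agent.Q156.KH.B

open Finset

namespace Pool.Agent.Q156.KH

lemma ex_append (l l' : List ℝ) (F : ℝ → ℝ) (y : ℝ) :
    ex (l ++ l') F y = ex l (fun t => ex l' F t) y := by
  induction l generalizing y with
  | nil => rfl
  | cons b l ih => simp only [List.cons_append, ex, ih]

lemma ex_abs (l : List ℝ) (F : ℝ → ℝ) (y : ℝ) : ex (l.map fun b => |b|) F y = ex l F y := by
  induction l generalizing y with
  | nil => rfl
  | cons b l ih =>
    simp only [List.map_cons, ex, ih]
    rcases le_total 0 b with h | h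
    · rw [abs_of_nonneg h]
    · rw [abs_of_nonpos h, sub_neg_eq_add]
      have : y + -b = y - b := by ring
      rw [this]
      ring

lemma ex_cont {X : Type*} [TopologicalSpace X] {F : ℝ → ℝ} (hF : Continuous F) :
    ∀ (n : ℕ) (f : Fin n → X → ℝ) (_ : ∀ i, Continuous (f i)) (y : X → ℝ) (_ : Continuous y),
      Continuous fun x => ex (List.ofFn fun i => f i x) F (y x) := by
  intro n
  induction n with
  | zero =>
    intro f _ y hy
    simp only [List.ofFn_zero, ex]
    exact hF.comp hy
  | succ n ih =>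
    intro f hf y hy
    simp only [List.ofFn_succ, ex]
    have h1 := ih (fun i => f i.succ) (fun i => hf i.succ) (fun x => y x + f 0 x) (hy.add (hf 0))
    have h2 := ih (fun i => f i.succ) (fun i => hf i.succ) (fun x => y x - f 0 x) (hy.sub (hf 0))
    exact (h1.add h2).div_const 2

lemma ex_sum {F : ℝ → ℝ} : ∀ (n : ℕ) (a : Fin n → ℝ) (y : ℝ),
    ex (List.ofFn a) F y = (∑ ε : Fin n → Bool, F (y + ∑ i, (if ε i then a i else -a i))) / 2 ^ n := by
  intro n
  induction n with
  | zero =>
    intro a y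
    simp [ex]
  | succ n ih =>
    intro a y
    rw [List.ofFn_succ]
    simp only [ex]
    rw [ih, ih]
    have h1 : ∑ ε : Fin (n + 1) → Bool, F (y + ∑ i, (if ε i then a i else -a i)) =
        ∑ p : Bool × (Fin n → Bool), F (y + ∑ i, (if (Fin.cons p.1 p.2 : Fin (n + 1) → Bool) i
          then a i else -a i)) :=
      ((Fin.consEquiv (fun _ => Bool)).sum_comp
        (fun ε : Fin (n + 1) → Bool => F (y + ∑ i, (if ε i then a i else -a i)))).symm
    rw [h1, Fintype.sum_prod_type, Fintype.sum_bool]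
    have h2 : ∀ (b : Bool) (ε : Fin n → Bool),
        ∑ i, (if (Fin.cons b ε : Fin (n + 1) → Bool) i then a i else -a i) =
          (if b then a 0 else -a 0) + ∑ i : Fin n, (if ε i then a i.succ else -a i.succ) := by
      intro b ε
      rw [Fin.sum_univ_succ]
      simp only [Fin.cons_zero, Fin.cons_succ]
    simp only [h2, if_true, Bool.false_eq_true, if_false]
    have h3 : ∀ s : ℝ, y + (a 0 + s) = y + a 0 + s := fun s => by ring
    have h4 : ∀ s : ℝ, y + (-a 0 + s) = y - a 0 + s := fun s => by ring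
    simp only [h3, h4]
    rw [pow_succ]
    field_simp

/-- one averaging step increases the functional -/
lemma step {n : ℕ} (x : Fin n → ℝ) (hx0 : ∀ k, 0 ≤ x k) (hx1 : ∑ k, x k = 1) (i j : Fin n)
    (hmax : ∀ k, x k ≤ x i) (hij : x j < x i) :
    ∃ x' : Fin n → ℝ, (∀ k, 0 ≤ x' k) ∧ ∑ k, x' k = 1 ∧
      ex (List.ofFn fun k => √(x k)) cu 0 + 1 / 10000 * ∑ k, x k ^ 2 <
        ex (List.ofFn fun k => √(x' k)) cu 0 + 1 / 10000 * ∑ k, x' k ^ 2 := by
  have hne : j ≠ i := fun h => by rw [h] at hij; exact lt_irrefl _ hij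
  set m := (x i + x j) / 2 with hm
  set x' : Fin n → ℝ := fun k => if k = i ∨ k = j then m else x k with hx'
  have hxi : 0 < x i := lt_of_le_of_lt (hx0 j) hij
  have hx'i : x' i = m := by rw [hx']; simp
  have hx'j : x' j = m := by rw [hx']; simp
  have hx'k : ∀ k, k ≠ i → k ≠ j → x' k = x k := by
    intro k h1 h2
    rw [hx']
    simp [h1, h2]
  -- the list of the other coordinates
  set R : List (Fin n) := ((List.finRange n).erase i).erase j with hR
  have hnd : (List.finRange n).Nodup := List.nodup_finRange n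
  have hperm : (List.finRange n).Perm (i :: j :: R) := by
    have h1 : (List.finRange n).Perm (i :: (List.finRange n).erase i) :=
      List.perm_cons_erase (List.mem_finRange i)
    have h2 : j ∈ (List.finRange n).erase i :=
      (List.Nodup.mem_erase_iff hnd).2 ⟨hne, List.mem_finRange j⟩
    exact h1.trans ((List.perm_cons_erase h2).cons i)
  have hRk : ∀ k ∈ R, k ≠ i ∧ k ≠ j := by
    intro k hk
    rw [hR, List.Nodup.mem_erase_iff (hnd.erase i), List.Nodup.mem_erase_iff hnd] at hk
    exact ⟨hk.2.1, hk.1⟩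
  have hsumF : ∀ f : Fin n → ℝ, ∑ k, f k = f i + f j + (R.map f).sum := by
    intro f
    have h1 : ∑ k, f k = ((List.finRange n).map f).sum := by
      rw [← List.sum_ofFn, List.ofFn_eq_map]
    rw [h1, (hperm.map f).sum_eq]
    simp only [List.map_cons, List.sum_cons]
    ring
  have hexF : ∀ f : Fin n → ℝ, ex (List.ofFn f) cu 0 =
      ex (R.map f) (fun T => ex [f i, f j] cu T) 0 := by
    intro f
    rw [List.ofFn_eq_map, ex_perm (hperm.map f), ← ex_append]
    apply ex_perm
    simp only [List.map_cons]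
    exact (List.perm_append_comm (l₁ := [f i, f j]) (l₂ := R.map f))
  have hRmap : ∀ f : ℝ → ℝ, R.map (fun k => f (x' k)) = R.map (fun k => f (x k)) := by
    intro f
    apply List.map_congr_left
    intro k hk
    rw [hx'k k (hRk k hk).1 (hRk k hk).2]
  refine ⟨x', ?_, ?_, ?_⟩
  · intro k
    by_cases h1 : k = i
    · rw [h1, hx'i, hm]; linarith [hx0 j]
    · by_cases h2 : k = j
      · rw [h2, hx'j, hm]; linarith [hx0 j]
      · rw [hx'k k h1 h2]; exact hx0 k
  · have h1 := hsumF x'
    have h2 := hsumF x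
    have h3 := hRmap id
    simp only [id] at h3
    have h4 : R.map x' = R.map x := h3
    rw [h1, h4, hx'i, hx'j]
    rw [hx1] at h2
    rw [hm]
    linarith
  · have hs1 := hsumF (fun k => x k ^ 2)
    have hs2 := hsumF (fun k => x' k ^ 2)
    simp only [hRmap (fun t => t ^ 2)] at hs2
    rw [hs1, hs2, hexF, hexF]
    simp only [hRmap (fun t => √t), hx'i, hx'j]
    set l := R.map (fun k => √(x k)) with hl
    set a := √(x i) with ha
    set b := √(x j) with hb
    have ha0 : 0 < a := Real.sqrt_pos.2 hxi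
    have ha2 : a ^ 2 = x i := Real.sq_sqrt hxi.le
    have hb2 : b ^ 2 = x j := Real.sq_sqrt (hx0 j)
    have hxi1 : x i ≤ 1 := by
      rw [← hx1]
      exact Finset.single_le_sum (fun k _ => hx0 k) (Finset.mem_univ i)
    have ha1 : a ≤ 1 := by
      rw [ha]
      exact Real.sqrt_le_one.2 hxi1
    have hlb : ∀ c ∈ l, 0 ≤ c ∧ c ≤ a := by
      intro c hc
      rw [hl, List.mem_map] at hc
      obtain ⟨k, _, rfl⟩ := hc
      exact ⟨Real.sqrt_nonneg _, Real.sqrt_le_sqrt (hmax k)⟩
    have hls : (l.map fun c => c ^ 2).sum ≤ 1 := by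
      have e1 : l.map (fun c => c ^ 2) = R.map x := by
        rw [hl, List.map_map]
        apply List.map_congr_left
        intro k _
        exact Real.sq_sqrt (hx0 k)
      rw [e1]
      have := hsumF x
      rw [hx1] at this
      linarith [hx0 j]
    have hball := small_ball ha0 ha1 l hlb hls
    have hpair := pair (a := a) (b := b) ha0 (Real.sqrt_nonneg _) (Real.sqrt_le_sqrt (hmax j))
      (r := √m) (Real.sqrt_nonneg _) (by
        rw [Real.sq_sqrt (by rw [hm]; linarith [hx0 j]), ha2, hb2])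
    have h5 := ex_mono l hpair 0
    rw [ex_add, ex_mul] at h5
    rw [ha2, hb2] at h5
    have hd : 0 < (x i - x j) ^ 2 := by
      have : 0 < x i - x j := by linarith
      positivity
    have h6 : (x i - x j) ^ 2 / 12800 ≤ (x i - x j) ^ 2 / (800 * a) *
        ex l (ind fun w => |w| ≤ 6 / 5 * a) 0 := by
      have e : (x i - x j) ^ 2 / 12800 = (x i - x j) ^ 2 / (800 * a) * (a / 16) := by
        field_simp
        ring
      rw [e]
      exact mul_le_mul_of_nonneg_left hball (by positivity)
    have h7 : m ^ 2 + m ^ 2 = x i ^ 2 + x j ^ 2 - (x i - x j) ^ 2 / 2 := by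
      rw [hm]; ring
    linarith

theorem main {n : ℕ} (x : Fin n → ℝ) (hx0 : ∀ k, 0 ≤ x k) (hx1 : ∑ k, x k = 1) :
    ex (List.ofFn fun k => √(x k)) cu 0 + 1 / 10000 * ∑ k, x k ^ 2 ≤
      ex (List.ofFn fun _ : Fin n => √(1 / n)) cu 0 + 1 / 10000 * (1 / n) := by
  have hn : n ≠ 0 := by
    rintro rfl
    simp at hx1
  have hn' : (n : ℝ) ≠ 0 := by exact_mod_cast hn
  set Φ : (Fin n → ℝ) → ℝ := fun x =>
    ex (List.ofFn fun k => √(x k)) cu 0 + 1 / 10000 * ∑ k, x k ^ 2 with hΦ
  have hcont : Continuous Φ := by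
    have hcu : Continuous cu := by unfold cu; fun_prop
    have h1 := ex_cont hcu n (fun k (x : Fin n → ℝ) => √(x k))
      (fun k => Real.continuous_sqrt.comp (continuous_apply k)) (fun _ => 0) continuous_const
    apply h1.add
    fun_prop
  have hmem : x ∈ stdSimplex ℝ (Fin n) := ⟨hx0, hx1⟩
  obtain ⟨z, hz, hzmax⟩ := (isCompact_stdSimplex ℝ (Fin n)).exists_isMaxOn ⟨x, hmem⟩
    hcont.continuousOn
  have hzx : Φ x ≤ Φ z := hzmax hmem
  -- `z` is constant
  have hne : Nonempty (Fin n) := ⟨⟨0, Nat.pos_of_ne_zero hn⟩⟩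
  obtain ⟨i, hi⟩ := Finite.exists_max z
  have hall : ∀ j, z j = z i := by
    intro j
    by_contra hj
    have hlt : z j < z i := lt_of_le_of_ne (hi j) hj
    obtain ⟨x', h0, h1, h2⟩ := step z hz.1 hz.2 i j hi hlt
    have h3 : Φ x' ≤ Φ z := hzmax (show x' ∈ stdSimplex ℝ (Fin n) from ⟨h0, h1⟩)
    exact absurd h2 (not_lt.2 h3)
  have hzi : z i = 1 / n := by
    have h1 := hz.2
    simp only [hall, Finset.sum_const, Finset.card_univ, Fintype.card_fin, nsmul_eq_mul] at h1
    field_simp
    linarith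
  have hzc : z = fun _ => 1 / (n : ℝ) := by
    funext j
    rw [hall j, hzi]
  refine hzx.trans (le_of_eq ?_)
  rw [hzc]
  simp only [hΦ, Finset.sum_const, Finset.card_univ, Fintype.card_fin, nsmul_eq_mul]
  congr 2
  field_simp

end Pool.Agent.Q156.KH
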